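import Mathlib

set_option autoImplicit false

/-! Counting incidences in star edge colourings (MP_92084f_co). -/

namespace Pool.Agent.K1H16.SC

variable {V K : Type} [Fintype V] [DecidableEq V] (G : SimpleGraph V) [DecidableRel G.Adj]
  [DecidableEq K] (c : Sym2 V → K)

/-- the vertices at which the colour `k` occurs -/
def cov (k : K) : Finset V :=
  Finset.univ.filter fun z => ∃ t, G.Adj z t ∧ c s(z, t) = k

/-- the ordered edges -/
def darts : Finset (V × V) :=
  Finset.univ.filter fun p => G.Adj p.1 p.2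

/-- the ordered edges of colour `k` -/
def dk (k : K) : Finset (V × V) :=
  (darts G).filter fun p => c s(p.1, p.2) = k

/-- the incidences -/
def inc : Finset (V × V × V) :=
  Finset.univ.filter fun p => G.Adj p.1 p.2.1 ∧ p.2.2 ≠ p.1 ∧ p.2.2 ≠ p.2.1 ∧
    p.2.2 ∈ cov G c (c s(p.1, p.2.1))

/-- proper and no bicoloured path or cycle of length four -/
def Star : Prop :=
  (∀ x y z : V, G.Adj x y → G.Adj x z → y ≠ z → c s(x, y) ≠ c s(x, z)) ∧
  ∀ v0 v1 v2 v3 v4 : V, G.Adj v0 v1 → G.Adj v1 v2 → G.Adj v2 v3 → G.Adj v3 v4 →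
    v0 ≠ v2 → v0 ≠ v3 → v1 ≠ v3 → v4 ≠ v1 → v4 ≠ v2 →
    ¬ (c s(v0, v1) = c s(v2, v3) ∧ c s(v1, v2) = c s(v3, v4))

variable {G c}

lemma key (h : Star G c) {x y z : V} (h1 : (x, y, z) ∈ inc G c) (h2 : (y, z, x) ∈ inc G c) :
    False := by
  simp only [inc, cov, Finset.mem_filter, Finset.mem_univ, true_and] at h1 h2
  obtain ⟨a1, a2, a3, t1, a4, a5⟩ := h1
  obtain ⟨b1, b2, b3, t2, b4, b5⟩ := h2
  refine h.2 t2 x y z t1 b4.symm a1 b1 a4 ?_ ?_ a2.symm ?_ ?_ ⟨?_, a5.symm⟩
  · rintro rfl
    refine h.1 t2 x z b4.symm b1 (Ne.symm a2) ?_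
    rw [Sym2.eq_swap]
    exact b5
  · rintro rfl
    refine h.1 t2 x y b4.symm b1.symm b2 ?_
    rw [Sym2.eq_swap, b5, Sym2.eq_swap]
  · rintro rfl
    refine h.1 t1 y z a1 a4.symm (Ne.symm a3) ?_
    rw [← a5, Sym2.eq_swap]
  · rintro rfl
    refine h.1 t1 x z a1.symm b1 (Ne.symm a2) ?_
    rw [Sym2.eq_swap, ← a5, Sym2.eq_swap]
  · rw [← b5, Sym2.eq_swap]

/-- rotation -/
def rot (p : V × V × V) : V × V × V := (p.2.1, p.2.2, p.1)

lemma rot_inj : Function.Injective (rot (V := V)) := by
  rintro ⟨a, b, d⟩ ⟨a', b', d'⟩ h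
  simp only [rot, Prod.mk.injEq] at h ⊢
  tauto

/-- the triples of different vertices -/
def tri (V : Type) [Fintype V] [DecidableEq V] : Finset (V × V × V) :=
  Finset.univ.filter fun p => p.1 ≠ p.2.1 ∧ p.1 ≠ p.2.2 ∧ p.2.1 ≠ p.2.2

lemma tri_card : (tri V).card ≤
    Fintype.card V * ((Fintype.card V - 1) * (Fintype.card V - 1) - (Fintype.card V - 1)) := by
  rw [Finset.card_eq_sum_card_fiberwise (f := fun p : V × V × V => p.1) (t := Finset.univ)
    (fun _ _ => Finset.mem_coe.2 (Finset.mem_univ _))]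
  calc _ ≤ ∑ _x : V, ((Fintype.card V - 1) * (Fintype.card V - 1) - (Fintype.card V - 1)) := by
        refine Finset.sum_le_sum fun x _ => ?_
        have h : (Finset.univ.erase x).offDiag.card =
            (Fintype.card V - 1) * (Fintype.card V - 1) - (Fintype.card V - 1) := by
          rw [Finset.offDiag_card, Finset.card_erase_of_mem (Finset.mem_univ x), Finset.card_univ]
        rw [← h]
        refine Finset.card_le_card_of_injOn (fun p => p.2) ?_ ?_
        · rintro ⟨a, b, d⟩ hp
          simp only [tri, Finset.coe_filter, Finset.mem_filter, Finset.mem_univ, true_and,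
            Set.mem_ofPred_eq] at hp
          obtain ⟨⟨h1, h2, h3⟩, rfl⟩ := hp
          simp only [Finset.mem_coe, Finset.mem_offDiag, Finset.mem_erase, Finset.mem_univ,
            and_true]
          exact ⟨h1.symm, h2.symm, h3⟩
        · rintro ⟨a, b, d⟩ hp ⟨a', b', d'⟩ hp' hh
          simp only [tri, Finset.coe_filter, Finset.mem_filter, Finset.mem_univ, true_and,
            Set.mem_ofPred_eq] at hp hp' hh
          rw [Prod.mk.injEq]
          exact ⟨hp.2.trans hp'.2.symm, hh⟩
    _ = _ := by rw [Finset.sum_const, Finset.card_univ, smul_eq_mul]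

lemma inc_card (h : Star G c) : 3 * (inc G c).card ≤ (tri V).card := by
  have hsub : ∀ p ∈ inc G c, p ∈ tri V := by
    rintro ⟨a, b, d⟩ hp
    simp only [inc, Finset.mem_filter, Finset.mem_univ, true_and] at hp
    simp only [tri, Finset.mem_filter, Finset.mem_univ, true_and]
    exact ⟨hp.1.ne, hp.2.1.symm, hp.2.2.1.symm⟩
  have hrot : ∀ p ∈ tri V, rot p ∈ tri V := by
    rintro ⟨a, b, d⟩ hp
    simp only [tri, rot, Finset.mem_filter, Finset.mem_univ, true_and] at hp ⊢
    exact ⟨hp.2.2, hp.1.symm, hp.2.1.symm⟩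
  have hk : ∀ p ∈ inc G c, rot p ∉ inc G c := by
    rintro ⟨a, b, d⟩ hp hp'
    exact key h hp hp'
  set I1 := (inc G c).image rot with hI1
  set I2 := I1.image rot with hI2
  have d01 : Disjoint (inc G c) I1 := by
    rw [Finset.disjoint_left]
    intro p hp hp1
    obtain ⟨q, hq, rfl⟩ := Finset.mem_image.1 hp1
    exact hk q hq hp
  have d12 : Disjoint I1 I2 := by
    rw [Finset.disjoint_left]
    intro p hp hp1
    obtain ⟨q, hq, rfl⟩ := Finset.mem_image.1 hp1
    obtain ⟨r, hr, hr2⟩ := Finset.mem_image.1 hp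
    have := rot_inj hr2
    subst this
    obtain ⟨q', hq', rfl⟩ := Finset.mem_image.1 hq
    exact hk q' hq' hr
  have d02 : Disjoint (inc G c) I2 := by
    rw [Finset.disjoint_left]
    intro p hp hp1
    obtain ⟨q, hq, rfl⟩ := Finset.mem_image.1 hp1
    obtain ⟨r, hr, rfl⟩ := Finset.mem_image.1 hq
    have h3 : rot (rot (rot r)) = r := rfl
    have := hk _ hp
    rw [h3] at this
    exact this hr
  have hc1 : I1.card = (inc G c).card := Finset.card_image_of_injective _ rot_inj
  have hc2 : I2.card = (inc G c).card := (Finset.card_image_of_injective _ rot_inj).trans hc1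
  have hu : (inc G c ∪ I1 ∪ I2).card = 3 * (inc G c).card := by
    rw [Finset.card_union_of_disjoint, Finset.card_union_of_disjoint d01, hc1, hc2]
    · ring
    · rw [Finset.disjoint_union_left]
      exact ⟨d02, d12⟩
  rw [← hu]
  refine Finset.card_le_card ?_
  have s1 : ∀ p ∈ I1, p ∈ tri V := by
    intro p hp
    obtain ⟨q, hq, rfl⟩ := Finset.mem_image.1 hp
    exact hrot q (hsub q hq)
  intro p hp
  rcases Finset.mem_union.1 hp with hp | hp
  · rcases Finset.mem_union.1 hp with hp | hp
    · exact hsub p hp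
    · exact s1 p hp
  · obtain ⟨q, hq, rfl⟩ := Finset.mem_image.1 hp
    exact hrot q (s1 q hq)

lemma cov_le {e : V × V} (he : e ∈ darts G) : (cov G c (c s(e.1, e.2))).card ≤
    ((inc G c).filter fun p => (p.1, p.2.1) = e).card + 2 := by
  have hsub : cov G c (c s(e.1, e.2)) ⊆
      insert e.1 (insert e.2 (((inc G c).filter fun p => (p.1, p.2.1) = e).image
        fun p => p.2.2)) := by
    intro z hz
    by_cases h1 : z = e.1
    · rw [h1]; exact Finset.mem_insert_self _ _
    by_cases h2 : z = e.2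
    · rw [h2]; exact Finset.mem_insert_of_mem (Finset.mem_insert_self _ _)
    refine Finset.mem_insert_of_mem (Finset.mem_insert_of_mem (Finset.mem_image.2
      ⟨(e.1, e.2, z), ?_, rfl⟩))
    rw [Finset.mem_filter]
    refine ⟨?_, rfl⟩
    simp only [inc, Finset.mem_filter, Finset.mem_univ, true_and]
    simp only [darts, Finset.mem_filter, Finset.mem_univ, true_and] at he
    exact ⟨he, h1, h2, hz⟩
  have h3 := Finset.card_le_card hsub
  have h4 := Finset.card_insert_le e.1 (insert e.2
    (((inc G c).filter fun p => (p.1, p.2.1) = e).image fun p => p.2.2))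
  have h5 := Finset.card_insert_le e.2
    (((inc G c).filter fun p => (p.1, p.2.1) = e).image fun p => p.2.2)
  have h6 : (((inc G c).filter fun p => (p.1, p.2.1) = e).image fun p => p.2.2).card ≤ _ :=
    Finset.card_image_le
  omega

lemma dk_le (h : Star G c) (k : K) : (dk G c k).card ≤ (cov G c k).card := by
  refine Finset.card_le_card_of_injOn (fun p => p.1) ?_ ?_
  · rintro ⟨a, b⟩ hp
    simp only [dk, darts, Finset.coe_filter, Finset.mem_filter, Finset.mem_univ, true_and,
      Set.mem_ofPred_eq] at hp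
    simp only [cov, Finset.coe_filter, Finset.mem_univ, true_and, Set.mem_ofPred_eq]
    exact ⟨b, hp⟩
  · rintro ⟨a, b⟩ hp ⟨a', b'⟩ hp' hh
    simp only [dk, darts, Finset.coe_filter, Finset.mem_filter, Finset.mem_univ, true_and,
      Set.mem_ofPred_eq] at hp hp' hh
    subst hh
    by_contra hne
    have hb : b ≠ b' := fun hb => hne (by rw [hb])
    exact h.1 a b b' hp.1 hp'.1 hb (hp.2.trans hp'.2.symm)

theorem count [Fintype K] (h : Star G c) : 3 * (darts G).card ^ 2 ≤ Fintype.card K *
    (Fintype.card V * ((Fintype.card V - 1) * (Fintype.card V - 1) - (Fintype.card V - 1)) +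
      6 * (darts G).card) := by
  -- the sum over the colours
  have h1 : (darts G).card = ∑ k : K, (dk G c k).card :=
    Finset.card_eq_sum_card_fiberwise (f := fun p : V × V => c s(p.1, p.2)) (t := Finset.univ)
      (fun _ _ => Finset.mem_coe.2 (Finset.mem_univ _))
  have h2 : ((∑ k : K, (dk G c k).card) ^ 2) ≤ Fintype.card K * ∑ k : K, (dk G c k).card ^ 2 := by
    have := sq_sum_le_card_mul_sum_sq (s := (Finset.univ : Finset K))
      (f := fun k => (dk G c k).card)
    rwa [Finset.card_univ] at this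
  have h3 : ∑ k : K, (dk G c k).card ^ 2 ≤ ∑ e ∈ darts G, (cov G c (c s(e.1, e.2))).card := by
    rw [← Finset.sum_fiberwise (darts G) (fun e : V × V => c s(e.1, e.2))]
    refine Finset.sum_le_sum fun k _ => ?_
    have h4 : ∑ e ∈ darts G with c s(e.1, e.2) = k, (cov G c (c s(e.1, e.2))).card =
        ∑ e ∈ darts G with c s(e.1, e.2) = k, (cov G c k).card := by
      refine Finset.sum_congr rfl fun e he => ?_
      rw [(Finset.mem_filter.1 he).2]
    rw [h4, Finset.sum_const, smul_eq_mul, sq]
    exact Nat.mul_le_mul_left _ (dk_le h k)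
  have h5 : (inc G c).card = ∑ e ∈ darts G, ((inc G c).filter fun p => (p.1, p.2.1) = e).card := by
    refine Finset.card_eq_sum_card_fiberwise (f := fun p : V × V × V => (p.1, p.2.1)) ?_
    rintro ⟨a, b, d⟩ hp
    simp only [inc, Finset.coe_filter, Finset.mem_univ, true_and, Set.mem_ofPred_eq] at hp
    simp only [darts, Finset.coe_filter, Finset.mem_univ, true_and, Set.mem_ofPred_eq]
    exact hp.1
  have h6 : ∑ e ∈ darts G, (cov G c (c s(e.1, e.2))).card ≤ (inc G c).card + 2 * (darts G).card := by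
    calc _ ≤ ∑ e ∈ darts G, (((inc G c).filter fun p => (p.1, p.2.1) = e).card + 2) :=
          Finset.sum_le_sum fun e he => cov_le he
      _ = _ := by
          rw [Finset.sum_add_distrib, ← h5, Finset.sum_const, smul_eq_mul, Nat.mul_comm 2]
  have h7 := (inc_card h).trans tri_card
  calc 3 * (darts G).card ^ 2 ≤ 3 * (Fintype.card K * ((inc G c).card + 2 * (darts G).card)) := by
        refine Nat.mul_le_mul_left _ ?_
        rw [h1, ← h1]
        rw [← h1] at h2
        exact h2.trans (Nat.mul_le_mul_left _ (h3.trans h6))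
    _ = Fintype.card K * (3 * (inc G c).card + 6 * (darts G).card) := by ring
    _ ≤ _ := Nat.mul_le_mul_left _ (Nat.add_le_add_right h7 _)

lemma darts_card : (darts G).card = 2 * G.edgeFinset.card := by
  rw [← G.sum_degrees_eq_twice_card_edges]
  rw [Finset.card_eq_sum_card_fiberwise (f := fun p : V × V => p.1) (t := Finset.univ)
    (fun _ _ => Finset.mem_coe.2 (Finset.mem_univ _))]
  refine Finset.sum_congr rfl fun x _ => ?_
  rw [← SimpleGraph.card_neighborFinset_eq_degree]
  refine Finset.card_bij (fun p _ => p.2) ?_ ?_ ?_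
  · rintro ⟨a, b⟩ hp
    simp only [darts, Finset.mem_filter, Finset.mem_univ, true_and] at hp
    obtain ⟨h1, rfl⟩ := hp
    rw [SimpleGraph.mem_neighborFinset]
    exact h1
  · rintro ⟨a, b⟩ hp ⟨a', b'⟩ hp' hh
    simp only [Finset.mem_filter] at hp hp' hh
    rw [Prod.mk.injEq]
    exact ⟨hp.2.trans hp'.2.symm, hh⟩
  · intro b hb
    rw [SimpleGraph.mem_neighborFinset] at hb
    exact ⟨(x, b), by simp [darts, hb], rfl⟩

end Pool.Agent.K1H16.SC
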