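import Mathlib

set_option autoImplicit false

/-! Hilbert cubes in dense subsets of finite abelian groups (MP_92084f_co). -/

namespace Pool.Agent.K1H16.SC

open Finset

lemma step {A : Type} [AddCommGroup A] [Fintype A] [DecidableEq A] (S T : Finset A) (δ : ℝ)
    (hδ : 0 < δ) (hS : δ * Fintype.card A ≤ S.card) (hT : (T.card : ℝ) < δ * Fintype.card A / 2)
    (hA : 0 < Fintype.card A) :
    ∃ g, g ∉ T ∧ δ ^ 2 / 2 * Fintype.card A ≤ ((S.filter fun b => b + g ∈ S).card : ℝ) := by
  by_contra hcon
  push Not at hcon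
  have hA' : (0 : ℝ) < Fintype.card A := by exact_mod_cast hA
  have h1 : ∑ g : A, (S.filter fun b => b + g ∈ S).card = S.card * S.card := by
    have h2 : ∀ g : A, (S.filter fun b => b + g ∈ S).card = ∑ b ∈ S, if b + g ∈ S then 1 else 0 :=
      fun g => by rw [Finset.card_filter]
    simp only [h2]
    rw [Finset.sum_comm]
    have h3 : ∀ b ∈ S, (∑ g : A, if b + g ∈ S then 1 else 0) = S.card := by
      intro b _
      have h4 := Fintype.sum_equiv (Equiv.addLeft b) (fun g => if b + g ∈ S then 1 else 0)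
        (fun g => if g ∈ S then 1 else 0) (fun g => rfl)
      rw [h4]
      simp
    rw [Finset.sum_congr rfl h3, Finset.sum_const, smul_eq_mul]
  have h5 : (∑ g : A, ((S.filter fun b => b + g ∈ S).card : ℝ)) = (S.card : ℝ) * S.card := by
    exact_mod_cast h1
  have h6 : (∑ g : A, ((S.filter fun b => b + g ∈ S).card : ℝ)) ≤
      ∑ g : A, ((if g ∈ T then (S.card : ℝ) else 0) + δ ^ 2 / 2 * Fintype.card A) := by
    refine Finset.sum_le_sum fun g _ => ?_
    have h7 : 0 ≤ δ ^ 2 / 2 * Fintype.card A := by positivity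
    split_ifs with hg
    · have : ((S.filter fun b => b + g ∈ S).card : ℝ) ≤ S.card := by
        exact_mod_cast Finset.card_filter_le _ _
      linarith
    · have := hcon g hg
      linarith
  rw [Finset.sum_add_distrib, Finset.sum_const, Finset.card_univ, nsmul_eq_mul, h5] at h6
  have h8 : (∑ g : A, if g ∈ T then (S.card : ℝ) else 0) = T.card * S.card := by
    simp
  rw [h8] at h6
  set s : ℝ := (S.card : ℝ) with hs
  set t : ℝ := (T.card : ℝ) with ht
  set n : ℝ := (Fintype.card A : ℝ) with hn
  have hs0 : 0 < s := lt_of_lt_of_le (by positivity) hS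
  have h9 : δ * n / 2 < s - t := by linarith
  have h10 : (δ * n) * (δ * n / 2) < s * (s - t) := by
    have := mul_lt_mul'' (show δ * n / 2 < s - t from h9) (show δ * n / 2 < s by linarith [show 0 < δ * n by positivity])
      (by positivity) (by positivity)
    have h11 : (δ * n) * (δ * n / 2) ≤ s * (δ * n / 2) :=
      mul_le_mul_of_nonneg_right hS (by positivity)
    have h12 : s * (δ * n / 2) < s * (s - t) := mul_lt_mul_of_pos_left h9 hs0
    linarith
  nlinarith

theorem cube {ι : Type} [DecidableEq ι] (J : Finset ι) : ∀ δ : ℝ, 0 < δ → ∃ δ' : ℝ, 0 < δ' ∧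
    ∃ N : ℕ, ∀ (A : Type) [AddCommGroup A] [Fintype A] [DecidableEq A], N ≤ Fintype.card A →
    ∀ S : Finset A, δ * Fintype.card A ≤ S.card → ∃ (g : ι → A) (S' : Finset A),
      δ' * Fintype.card A ≤ S'.card ∧ (∀ b ∈ S', ∀ I ⊆ J, b + ∑ i ∈ I, g i ∈ S) ∧
      ∀ I ⊆ J, I.Nonempty → ∑ i ∈ I, g i ≠ 0 := by
  induction J using Finset.induction_on with
  | empty =>
    intro δ hδ
    refine ⟨δ, hδ, 0, fun A _ _ _ _ S hS => ⟨fun _ => 0, S, hS, ?_, ?_⟩⟩
    · intro b hb I hI
      simpa using hb
    · intro I hI hne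
      rw [Finset.subset_empty.1 hI] at hne
      exact absurd hne Finset.not_nonempty_empty
  | insert a J ha ih =>
    intro δ hδ
    obtain ⟨δ1, hδ1, N, hN⟩ := ih δ hδ
    obtain ⟨N2, hN2⟩ := exists_nat_gt ((2 : ℝ) ^ (J.card + 1) / δ1)
    refine ⟨δ1 ^ 2 / 2, by positivity, max (max N N2) 1, fun A _ _ _ hA S hS => ?_⟩
    obtain ⟨g, S1, h1, h2, h3⟩ := hN A ((le_max_left _ _).trans ((le_max_left _ _).trans hA)) S hS
    have hA1 : 1 ≤ Fintype.card A := (le_max_right _ _).trans hA
    have hA2 : N2 ≤ Fintype.card A := (le_max_right _ _).trans ((le_max_left _ _).trans hA)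
    set T : Finset A := J.powerset.image fun I => -∑ i ∈ I, g i with hT
    have hTc : T.card ≤ 2 ^ J.card := by
      rw [← Finset.card_powerset]
      exact Finset.card_image_le
    have hTr : (T.card : ℝ) < δ1 * Fintype.card A / 2 := by
      have h4 : (T.card : ℝ) ≤ 2 ^ J.card := by exact_mod_cast hTc
      have h5 : (2 : ℝ) ^ (J.card + 1) / δ1 < Fintype.card A :=
        hN2.trans_le (by exact_mod_cast hA2)
      rw [div_lt_iff₀ hδ1, pow_succ] at h5
      linarith
    obtain ⟨g', hg1, hg2⟩ := step S1 T δ1 hδ1 h1 hTr (by omega)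
    have hupd : ∀ I ⊆ J, ∑ i ∈ I, Function.update g a g' i = ∑ i ∈ I, g i := by
      intro I hI
      refine Finset.sum_congr rfl fun i hi => ?_
      rw [Function.update_of_ne]
      rintro rfl
      exact ha (hI hi)
    have hins : ∀ I ⊆ insert a J, a ∈ I → ∑ i ∈ I, Function.update g a g' i =
        g' + ∑ i ∈ I.erase a, g i := by
      intro I hI haI
      rw [← Finset.add_sum_erase I _ haI, Function.update_self, hupd]
      intro i hi
      rw [Finset.mem_erase] at hi
      rcases Finset.mem_insert.1 (hI hi.2) with h | h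
      · exact absurd h hi.1
      · exact h
    have hera : ∀ I ⊆ insert a J, I.erase a ⊆ J := by
      intro I hI i hi
      rw [Finset.mem_erase] at hi
      rcases Finset.mem_insert.1 (hI hi.2) with h | h
      · exact absurd h hi.1
      · exact h
    have hnot : ∀ I ⊆ insert a J, a ∉ I → I ⊆ J := by
      intro I hI haI i hi
      rcases Finset.mem_insert.1 (hI hi) with h | h
      · exact absurd (h ▸ hi) haI
      · exact h
    refine ⟨Function.update g a g', S1.filter fun b => b + g' ∈ S1, hg2, ?_, ?_⟩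
    · intro b hb I hI
      rw [Finset.mem_filter] at hb
      by_cases haI : a ∈ I
      · rw [hins I hI haI, ← add_assoc]
        exact h2 _ hb.2 _ (hera I hI)
      · rw [hupd I (hnot I hI haI)]
        exact h2 _ hb.1 _ (hnot I hI haI)
    · intro I hI hne
      by_cases haI : a ∈ I
      · rw [hins I hI haI]
        intro h0
        apply hg1
        rw [hT, Finset.mem_image]
        exact ⟨I.erase a, Finset.mem_powerset.2 (hera I hI), (eq_neg_of_add_eq_zero_left h0).symm⟩
      · rw [hupd I (hnot I hI haI)]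
        exact h3 I (hnot I hI haI) hne

end Pool.Agent.K1H16.SC
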