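import Mathlib

set_option autoImplicit false

/-! Three term progressions in sets of small doubling (MP_92084f_co). -/

namespace Pool.Agent.K1H16.SC

open Finset SimpleGraph TripartiteFromTriangles
open scoped Pointwise

section

variable {A : Type} [AddCommGroup A] [DecidableEq A]

/-- the triangles -/
def tt (V Y : Finset A) : Finset (Y × Y × Y) :=
  Finset.univ.filter fun p => (p.1 : A) ∈ V ∧ (p.2.2 : A) = p.1 + p.2.1 ∧ (p.1 : A) + p.2.2 ∈ V

instance (V Y : Finset A) : ExplicitDisjoint (tt V Y) where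
  inj₀ := by
    intro a b c a' h h'
    simp only [tt, Finset.mem_filter, Finset.mem_univ, true_and] at h h'
    apply Subtype.ext
    have := h.2.1.symm.trans h'.2.1
    exact add_right_cancel this
  inj₁ := by
    intro a b c b' h h'
    simp only [tt, Finset.mem_filter, Finset.mem_univ, true_and] at h h'
    apply Subtype.ext
    have := h.2.1.symm.trans h'.2.1
    exact add_left_cancel this
  inj₂ := by
    intro a b c c' h h'
    simp only [tt, Finset.mem_filter, Finset.mem_univ, true_and] at h h'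
    apply Subtype.ext
    exact h.2.1.trans h'.2.1.symm

lemma tt_card (V Y : Finset A) (h1 : V ⊆ Y) (h2 : ∀ a ∈ V, ∀ x ∈ V, a - (x + x) ∈ Y)
    (h3 : ∀ a ∈ V, ∀ x ∈ V, a - x ∈ Y) : V.card * V.card ≤ (tt V Y).card := by
  rw [← Finset.card_product]
  refine Finset.card_le_card_of_surjOn (fun p : Y × Y × Y => ((p.1 : A), (p.1 : A) + p.2.2)) ?_
  rintro ⟨x, a⟩ hp
  rw [Finset.mem_coe, Finset.mem_product] at hp
  obtain ⟨hx, ha⟩ := hp
  simp only at hx ha
  refine ⟨(⟨x, h1 hx⟩, ⟨a - (x + x), h2 a ha x hx⟩, ⟨a - x, h3 a ha x hx⟩), ?_, ?_⟩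
  · simp only [tt, Finset.coe_filter, Finset.mem_univ, true_and, Set.mem_ofPred_eq]
    refine ⟨hx, by abel, ?_⟩
    have : x + (a - x) = a := by abel
    rw [this]
    exact ha
  · simp only [Prod.mk.injEq, true_and]
    abel

/-- the pairs (middle point, difference) -/
def prg (V : Finset A) : Finset (A × A) :=
  (V ×ˢ (V - V)).filter fun p => p.1 + p.2 ∈ V ∧ p.1 - p.2 ∈ V

lemma clique_card (V Y : Finset A) :
    ((graph (tt V Y)).cliqueFinset 3).card ≤ V.card * (prg V).card := by
  classical
  set P : Finset (Y × Y × Y) := Finset.univ.filter fun p => (p.1 : A) ∈ V ∧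
    (p.1 : A) + (p.1 + p.2.1) ∈ V ∧ (p.1 : A) + p.2.2 ∈ V ∧ ((p.2.2 : A) - p.2.1) + p.2.2 ∈ V
    with hP
  have h1 : ((graph (tt V Y)).cliqueFinset 3) ⊆ P.image toTriangle := by
    intro s hs
    rw [mem_cliqueFinset_iff, is3Clique_iff] at hs
    obtain ⟨x, y, z, hxy, hxz, hyz, rfl⟩ := hs
    obtain ⟨a, b, c, habc, hab, hac, hbc⟩ := graph_triple hxy hxz hyz
    rw [Finset.mem_image]
    refine ⟨(a, b, c), ?_, habc⟩
    obtain ⟨c', hc'⟩ := Graph.in₀₁_iff.1 hab
    obtain ⟨b', hb'⟩ := Graph.in₀₂_iff.1 hac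
    obtain ⟨a', ha'⟩ := Graph.in₁₂_iff.1 hbc
    simp only [tt, Finset.mem_filter, Finset.mem_univ, true_and] at ha' hb' hc'
    rw [hP, Finset.mem_filter]
    refine ⟨Finset.mem_univ _, hc'.1, ?_, hb'.2.2, ?_⟩
    · simp only
      rw [← hc'.2.1]
      exact hc'.2.2
    · simp only
      have : (c : A) - b = a' := by rw [ha'.2.1]; abel
      rw [this]
      exact ha'.2.2
  have h2 : P.card ≤ (V ×ˢ prg V).card := by
    refine Finset.card_le_card_of_injOn
      (fun p : Y × Y × Y => ((p.1 : A), ((p.1 : A) + p.2.2, (p.1 : A) + p.2.1 - p.2.2))) ?_ ?_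
    · rintro ⟨a, b, c⟩ hp
      simp only [hP, Finset.coe_filter, Finset.mem_univ, true_and, Set.mem_ofPred_eq] at hp
      obtain ⟨e1, e2, e3, e4⟩ := hp
      rw [Finset.mem_coe, Finset.mem_product, prg, Finset.mem_filter, Finset.mem_product]
      have f1 : (a : A) + c + (a + b - c) = a + (a + b) := by abel
      have f2 : (a : A) + c - (a + b - c) = c - b + c := by abel
      refine ⟨e1, ⟨e3, ?_⟩, ?_, ?_⟩
      · have : (a : A) + b - c = (a + (a + b)) - (a + c) := by abel
        simp only
        rw [this]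
        exact Finset.sub_mem_sub e2 e3
      · simp only
        rw [f1]
        exact e2
      · simp only
        rw [f2]
        exact e4
    · rintro ⟨a, b, c⟩ hp ⟨a', b', c'⟩ hp' hh
      simp only [Prod.mk.injEq] at hh
      obtain ⟨k1, k2, k3⟩ := hh
      have ha : a = a' := Subtype.ext k1
      subst ha
      have hc : c = c' := Subtype.ext (add_left_cancel k2)
      subst hc
      have hb : b = b' := Subtype.ext (add_left_cancel (sub_left_inj.1 k3))
      subst hb
      rfl
  calc _ ≤ (P.image toTriangle).card := Finset.card_le_card h1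
    _ ≤ P.card := Finset.card_image_le
    _ ≤ _ := h2
    _ = _ := Finset.card_product _ _

lemma prg_card (V : Finset A) (H : ∀ m d : A, d ≠ 0 → m ∈ V → m + d ∈ V → m - d ∈ V →
    (V.filter fun x => x + d ∈ V).card ≤ 4) : (prg V).card ≤ V.card + 4 * (V - V).card := by
  have h1 : prg V ⊆ (V ×ˢ {0}) ∪ (((V - V).filter fun d => d ≠ 0).biUnion fun d =>
      (V.filter fun m => m + d ∈ V ∧ m - d ∈ V) ×ˢ {d}) := by
    rintro ⟨m, d⟩ hp
    rw [prg, Finset.mem_filter, Finset.mem_product] at hp
    obtain ⟨⟨e1, e2⟩, e3, e4⟩ := hp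
    simp only at e1 e2 e3 e4
    by_cases hd : d = 0
    · subst hd
      exact Finset.mem_union_left _ (by simp [e1])
    · refine Finset.mem_union_right _ (Finset.mem_biUnion.2 ⟨d, by simp [e2, hd], ?_⟩)
      simp [e1, e3, e4]
  refine (Finset.card_le_card h1).trans ((Finset.card_union_le _ _).trans ?_)
  refine Nat.add_le_add (by simp) ?_
  refine (Finset.card_biUnion_le).trans ?_
  calc _ ≤ ∑ d ∈ (V - V).filter fun d => d ≠ 0, 4 := by
        refine Finset.sum_le_sum fun d hd => ?_
        rw [Finset.card_product, Finset.card_singleton, mul_one]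
        rcases (V.filter fun m => m + d ∈ V ∧ m - d ∈ V).eq_empty_or_nonempty with h | ⟨m, hm⟩
        · rw [h]; simp
        · rw [Finset.mem_filter] at hm
          refine le_trans (Finset.card_le_card ?_)
            (H m d (Finset.mem_filter.1 hd).2 hm.1 hm.2.1 hm.2.2)
          intro y hy
          rw [Finset.mem_filter] at hy ⊢
          exact ⟨hy.1, hy.2.1⟩
    _ ≤ _ := by
        rw [Finset.sum_const, smul_eq_mul, Nat.mul_comm]
        exact Nat.mul_le_mul_left _ (Finset.card_filter_le _ _)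

end

end Pool.Agent.K1H16.SC
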