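import Pool.Agent.K1H16.SC.Roth

set_option autoImplicit false

/-! Sum colourings are superlinear (MP_92084f_co). -/

namespace Pool.Agent.K1H16.SC

open Finset SimpleGraph TripartiteFromTriangles
open scoped Pointwise

lemma pr {A : Type} [AddCommGroup A] [DecidableEq A] (V : Finset A) (hV : V.Nonempty) (K : ℕ)
    (h : (V + V).card ≤ K * V.card) (m k : ℕ) :
    (m • V - k • V).card ≤ K ^ (m + k) * V.card := by
  have h1 := pluennecke_ruzsa_inequality_nsmul_sub_nsmul_add hV V m k
  have hV0 : (0 : ℚ≥0) < V.card := by exact_mod_cast hV.card_pos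
  have h2 : ((V + V).card : ℚ≥0) / V.card ≤ K := by
    rw [div_le_iff₀ hV0]
    exact_mod_cast h
  have h3 : ((m • V - k • V).card : ℚ≥0) ≤ (K : ℚ≥0) ^ (m + k) * V.card :=
    h1.trans (mul_le_mul_of_nonneg_right (pow_le_pow_left₀ (by positivity) h2 _) (by positivity))
  exact_mod_cast h3

theorem small (K : ℕ) (hK : 1 ≤ K) : ∃ n0 : ℕ, ∀ (A : Type) [AddCommGroup A] [DecidableEq A]
    (V : Finset A), n0 ≤ V.card → (V + V).card ≤ K * V.card →
    ¬ (∀ m d : A, d ≠ 0 → m ∈ V → m + d ∈ V → m - d ∈ V →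
      (V.filter fun x => x + d ∈ V).card ≤ 4) := by
  have hKr : (1 : ℝ) ≤ K := by exact_mod_cast hK
  have hK0 : (0 : ℝ) < K := by linarith
  set ε : ℝ := 1 / (81 * (K : ℝ) ^ 6) with hε
  have hε0 : 0 < ε := by positivity
  have hε1 : ε ≤ 1 := by
    rw [hε, div_le_one (by positivity)]
    have : (1 : ℝ) ≤ (K : ℝ) ^ 6 := one_le_pow₀ hKr
    linarith
  have hb : 0 < triangleRemovalBound ε := triangleRemovalBound_pos hε0
  obtain ⟨n0, hn0⟩ := exists_nat_gt ((1 + 4 * (K : ℝ) ^ 2) / triangleRemovalBound ε)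
  refine ⟨n0 + 1, fun A _ _ V hV hVV H => ?_⟩
  have hne : V.Nonempty := Finset.card_pos.1 (by omega)
  have c2 : (V - V).card ≤ K ^ 2 * V.card := by
    have := pr V hne K hVV 1 1
    rwa [one_nsmul] at this
  have c3 : (V - (V + V)).card ≤ K ^ 3 * V.card := by
    have := pr V hne K hVV 1 2
    rwa [one_nsmul, two_nsmul] at this
  set Y : Finset A := V ∪ (V - (V + V)) ∪ (V - V) with hY
  set n : ℕ := V.card with hn
  have hYc : (Y.card : ℝ) ≤ 3 * (K : ℝ) ^ 3 * n := by
    have h1 : Y.card ≤ n + K ^ 3 * n + K ^ 2 * n := by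
      refine (Finset.card_union_le _ _).trans ?_
      have := Finset.card_union_le V (V - (V + V))
      omega
    have h2 : (Y.card : ℝ) ≤ n + (K : ℝ) ^ 3 * n + (K : ℝ) ^ 2 * n := by exact_mod_cast h1
    have h3 : (1 : ℝ) ≤ (K : ℝ) ^ 3 := one_le_pow₀ hKr
    have h4 : (K : ℝ) ^ 2 ≤ (K : ℝ) ^ 3 := pow_le_pow_right₀ hKr (by norm_num)
    have h5 : (0 : ℝ) ≤ n := Nat.cast_nonneg n
    have h6 := mul_le_mul_of_nonneg_right h3 h5
    have h7 := mul_le_mul_of_nonneg_right h4 h5
    linarith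
  have hYn : n ≤ Y.card := Finset.card_le_card
    ((Finset.subset_union_left).trans Finset.subset_union_left)
  have ht : n * n ≤ (tt V Y).card := by
    refine tt_card V Y ((Finset.subset_union_left).trans Finset.subset_union_left) ?_ ?_
    · intro a ha x hx
      exact Finset.mem_union_left _ (Finset.mem_union_right _
        (Finset.sub_mem_sub ha (Finset.add_mem_add hx hx)))
    · intro a ha x hx
      exact Finset.mem_union_right _ (Finset.sub_mem_sub ha hx)
  have hfar : (graph (tt V Y)).FarFromTriangleFree ε := by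
    apply farFromTriangleFree
    rw [Fintype.card_coe]
    push_cast
    have h1 : ((n * n : ℕ) : ℝ) ≤ ((tt V Y).card : ℝ) := by exact_mod_cast ht
    refine le_trans ?_ h1
    push_cast
    have h2 : ((Y.card : ℝ) + Y.card + Y.card) ^ 2 ≤ (9 * (K : ℝ) ^ 3 * n) ^ 2 :=
      pow_le_pow_left₀ (by positivity) (by linarith) 2
    calc ε * ((Y.card : ℝ) + Y.card + Y.card) ^ 2 ≤ ε * (9 * (K : ℝ) ^ 3 * n) ^ 2 :=
          mul_le_mul_of_nonneg_left h2 hε0.le
      _ = n * n := by
          rw [hε]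
          field_simp
          ring
  have hcl := hfar.le_card_cliqueFinset
  have hcc : (((graph (tt V Y)).cliqueFinset 3).card : ℝ) ≤ n * (n + 4 * ((K : ℝ) ^ 2 * n)) := by
    have h1 := (clique_card V Y).trans (Nat.mul_le_mul_left _ ((prg_card V H).trans
      (Nat.add_le_add_left (Nat.mul_le_mul_left 4 c2) _)))
    exact_mod_cast h1
  have hn1 : (0 : ℝ) < n := by
    have : 0 < n := hne.card_pos
    exact_mod_cast this
  have h8 : triangleRemovalBound ε * (n : ℝ) ^ 3 ≤ (1 + 4 * (K : ℝ) ^ 2) * (n : ℝ) ^ 2 := by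
    have h9 : (n : ℝ) ^ 3 ≤ (Fintype.card (Y ⊕ Y ⊕ Y) : ℝ) ^ 3 := by
      refine pow_le_pow_left₀ hn1.le ?_ 3
      rw [Fintype.card_sum, Fintype.card_sum, Fintype.card_coe]
      exact_mod_cast hYn.trans (by omega)
    calc triangleRemovalBound ε * (n : ℝ) ^ 3 ≤
          triangleRemovalBound ε * (Fintype.card (Y ⊕ Y ⊕ Y) : ℝ) ^ 3 :=
          mul_le_mul_of_nonneg_left h9 hb.le
      _ ≤ _ := by exact_mod_cast hcl
      _ ≤ _ := hcc
      _ = _ := by ring
  have h10 : triangleRemovalBound ε * n ≤ 1 + 4 * (K : ℝ) ^ 2 := by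
    have h11 : (triangleRemovalBound ε * n) * (n : ℝ) ^ 2 ≤ (1 + 4 * (K : ℝ) ^ 2) * (n : ℝ) ^ 2 := by
      calc _ = triangleRemovalBound ε * (n : ℝ) ^ 3 := by ring
        _ ≤ _ := h8
    exact le_of_mul_le_mul_right h11 (by positivity)
  rw [div_lt_iff₀ hb] at hn0
  have h12 : (n0 : ℝ) ≤ n := by
    have : n0 ≤ n := by omega
    exact_mod_cast this
  have h13 := mul_le_mul_of_nonneg_right h12 hb.le
  linarith

/-- the sum colouring -/
def sumCol {V A : Type} [AddCommGroup A] (φ : V → A) : Sym2 V → A :=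
  Sym2.lift ⟨fun x y => φ x + φ y, fun _ _ => add_comm _ _⟩

theorem main3 (C : ℕ) : ∃ n0 : ℕ, ∀ n : ℕ, n0 ≤ n → ∀ (A : Type) [AddCommGroup A] (φ : Fin n → A),
    (∀ x y z : Fin n, x ≠ y → x ≠ z → y ≠ z → φ x + φ y ≠ φ x + φ z) →
    (∀ v0 v1 v2 v3 v4 : Fin n, v0 ≠ v1 → v0 ≠ v2 → v0 ≠ v3 → v1 ≠ v2 → v1 ≠ v3 → v2 ≠ v3 →
      v4 ≠ v1 → v4 ≠ v2 → v4 ≠ v3 →
      ¬ (φ v0 + φ v1 = φ v2 + φ v3 ∧ φ v1 + φ v2 = φ v3 + φ v4)) →
    C * n < {a : A | ∃ x y : Fin n, x ≠ y ∧ φ x + φ y = a}.ncard := by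
  classical
  obtain ⟨n0, h0⟩ := small (C + 1) (by omega)
  refine ⟨n0 + 3, fun n hn A _ φ hp hs => ?_⟩
  by_contra hcon
  push Not at hcon
  have hinj : Function.Injective φ := by
    intro y z hyz
    by_contra hne
    obtain ⟨x, hx⟩ : ∃ x : Fin n, x ∉ ({y, z} : Finset (Fin n)) := by
      by_contra hall
      push Not at hall
      have h1 : (Finset.univ : Finset (Fin n)) ⊆ {y, z} := fun x _ => hall x
      have h2 := Finset.card_le_card h1
      rw [Finset.card_univ, Fintype.card_fin] at h2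
      have h3 := Finset.card_insert_le y {z}
      rw [Finset.card_singleton] at h3
      omega
    simp only [Finset.mem_insert, Finset.mem_singleton, not_or] at hx
    exact hp x y z hx.1 hx.2 hne (by rw [hyz])
  set V : Finset A := Finset.univ.image φ with hV
  have hVc : V.card = n := by
    rw [hV, Finset.card_image_of_injective _ hinj, Finset.card_univ, Fintype.card_fin]
  have hcol : {a : A | ∃ x y : Fin n, x ≠ y ∧ φ x + φ y = a} =
      (((Finset.univ.filter fun p : Fin n × Fin n => p.1 ≠ p.2).image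
        fun p => φ p.1 + φ p.2 : Finset A) : Set A) := by
    ext a
    simp
  rw [hcol, Set.ncard_coe_finset] at hcon
  refine h0 A V (by omega) ?_ ?_
  · have h1 : V + V ⊆ ((Finset.univ.filter fun p : Fin n × Fin n => p.1 ≠ p.2).image
        fun p => φ p.1 + φ p.2) ∪ (Finset.univ.image fun x => φ x + φ x) := by
      intro a ha
      obtain ⟨u, hu, v, hv, rfl⟩ := Finset.mem_add.1 ha
      obtain ⟨x, _, rfl⟩ := Finset.mem_image.1 hu
      obtain ⟨y, _, rfl⟩ := Finset.mem_image.1 hv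
      by_cases hxy : x = y
      · subst hxy
        exact Finset.mem_union_right _ (Finset.mem_image_of_mem _ (Finset.mem_univ _))
      · exact Finset.mem_union_left _ (Finset.mem_image.2 ⟨(x, y), by simp [hxy], rfl⟩)
    have h2 := (Finset.card_le_card h1).trans (Finset.card_union_le _ _)
    have h3 : (Finset.univ.image fun x : Fin n => φ x + φ x).card ≤ n := by
      refine Finset.card_image_le.trans ?_
      rw [Finset.card_univ, Fintype.card_fin]
    rw [hVc]
    calc _ ≤ _ := h2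
      _ ≤ C * n + n := Nat.add_le_add hcon h3
      _ = _ := by ring
  · intro m d hd hm hm1 hm2
    by_contra h5
    push Not at h5
    obtain ⟨x, hx, hxn⟩ : ∃ x ∈ V.filter fun x => x + d ∈ V,
        x ∉ ({m + d, m, m - d, m - d - d} : Finset A) := by
      refine Finset.exists_mem_notMem_of_card_lt_card (lt_of_le_of_lt ?_ h5)
      exact Finset.card_le_four
    rw [Finset.mem_filter] at hx
    simp only [Finset.mem_insert, Finset.mem_singleton, not_or] at hxn
    obtain ⟨x1, x2, x3, x4⟩ := hxn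
    obtain ⟨i1, _, e1⟩ := Finset.mem_image.1 hx.1
    obtain ⟨i3, _, e3⟩ := Finset.mem_image.1 hx.2
    obtain ⟨i2, _, e2⟩ := Finset.mem_image.1 hm
    obtain ⟨i0, _, e0⟩ := Finset.mem_image.1 hm1
    obtain ⟨i4, _, e4⟩ := Finset.mem_image.1 hm2
    refine hs i0 i1 i2 i3 i4 ?_ ?_ ?_ ?_ ?_ ?_ ?_ ?_ ?_ ⟨?_, ?_⟩
    · rintro rfl
      exact x1 (e1.symm.trans e0)
    · rintro rfl
      have := e0.symm.trans e2
      exact hd (by simpa using this)
    · rintro rfl
      have := e0.symm.trans e3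
      exact x2 (add_right_cancel this).symm
    · rintro rfl
      exact x2 (e1.symm.trans e2)
    · rintro rfl
      have := e3.symm.trans e1
      exact hd (by simpa using this)
    · rintro rfl
      have h6 := e2.symm.trans e3
      apply x3
      rw [h6]
      abel
    · rintro rfl
      exact x3 (e1.symm.trans e4)
    · rintro rfl
      have := e4.symm.trans e2
      exact hd (by simpa using this)
    · rintro rfl
      have h6 := e4.symm.trans e3
      apply x4
      rw [h6]
      abel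
    · rw [e0, e1, e2, e3]
      abel
    · rw [e1, e2, e3, e4]
      abel

end Pool.Agent.K1H16.SC
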