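import Pool.Agent.K1H16.SC.Cube

set_option autoImplicit false

/-! Star edge colourings compatible with the sums in a finite abelian group (MP_92084f_co). -/

namespace Pool.Agent.K1H16.SC

open Finset Combinatorics

/-- first coordinates of the four points -/
def pa : Fin 4 → ℤ := ![0, 1, 0, 1]

/-- second coordinates of the four points -/
def pb : Fin 4 → ℤ := ![0, -1, 1, 0]

section pts

variable {A : Type} [AddCommGroup A] {ι : Type} [Fintype ι]

/-- first point of a word -/
def ptx (g : ι → A) (w : ι → Fin 4) : A := ∑ i, pa (w i) • g i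

/-- second point of a word -/
def pty (b : A) (g : ι → A) (w : ι → Fin 4) : A := b + ∑ i, pb (w i) • g i

lemma sum_pt (b : A) (g : ι → A) (w : ι → Fin 4) :
    ptx g w + pty b g w = b + ∑ i ∈ Finset.univ.filter (fun i => 2 ≤ w i), g i := by
  unfold ptx pty
  rw [add_left_comm, ← Finset.sum_add_distrib, Finset.sum_filter]
  congr 1
  refine Finset.sum_congr rfl fun i _ => ?_
  rw [← add_smul]
  generalize w i = j
  fin_cases j
  · simp [pa, pb]
  · simp [pa, pb]
  · simp [pa, pb]
  · simp [pa, pb]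

lemma split (f : Fin 4 → ℤ) (g : ι → A) (l : Line (Fin 4) ι) [DecidablePred fun i => l.idxFun i = none]
    (j : Fin 4) : ∑ i, f (l j i) • g i =
      ∑ i ∈ Finset.univ.filter (fun i => ¬ l.idxFun i = none), f ((l.idxFun i).getD 0) • g i +
        f j • ∑ i ∈ Finset.univ.filter (fun i => l.idxFun i = none), g i := by
  rw [← Finset.sum_filter_add_sum_filter_not Finset.univ (fun i => l.idxFun i = none), add_comm,
    Finset.smul_sum]
  congr 1
  · refine Finset.sum_congr rfl fun i hi => ?_
    have h := (Finset.mem_filter.1 hi).2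
    obtain ⟨v, hv⟩ := Option.ne_none_iff_exists'.1 h
    have e : l j i = v := by
      change (l.idxFun i).getD j = v
      rw [hv]; rfl
    rw [e, hv]
    rfl
  · refine Finset.sum_congr rfl fun i hi => ?_
    have h := (Finset.mem_filter.1 hi).2
    have e : l j i = j := by
      change (l.idxFun i).getD j = j
      rw [h]; rfl
    rw [e]

end pts

theorem main (C : ℕ) : ∃ n0 : ℕ, ∀ (A : Type) [AddCommGroup A] [Fintype A], n0 ≤ Fintype.card A →
    ∀ (K : Type) (c : Sym2 A → K),
    (∀ v0 v1 v2 v3 v4 : A, v0 ≠ v1 → v0 ≠ v2 → v0 ≠ v3 → v1 ≠ v2 → v1 ≠ v3 → v2 ≠ v3 →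
      v4 ≠ v1 → v4 ≠ v2 → v4 ≠ v3 →
      ¬ (c s(v0, v1) = c s(v2, v3) ∧ c s(v1, v2) = c s(v3, v4))) →
    (∀ x y z t : A, x ≠ y → z ≠ t → c s(x, y) = c s(z, t) → x + y = z + t) →
    C * Fintype.card A < {k : K | ∃ x y : A, x ≠ y ∧ c s(x, y) = k}.ncard := by
  classical
  obtain ⟨ι, hι, hHJ⟩ := Line.exists_mono_in_high_dimension (Fin 4) (Fin (2 * C + 1))
  obtain ⟨δ', hδ', N, hcube⟩ := cube (Finset.univ : Finset ι) (1 / 2) (by norm_num)
  obtain ⟨N2, hN2⟩ := exists_nat_gt ((5 : ℝ) ^ (Fintype.card ι) / δ')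
  refine ⟨max (max N N2) 1, fun A _ _ hA K c hs hc => ?_⟩
  by_contra hcon
  push Not at hcon
  have hA0 : N ≤ Fintype.card A := (le_max_left _ _).trans ((le_max_left _ _).trans hA)
  have hA1 : 1 ≤ Fintype.card A := (le_max_right _ _).trans hA
  have hA2 : N2 ≤ Fintype.card A := (le_max_right _ _).trans ((le_max_left _ _).trans hA)
  -- the colours of the edges with sum `s`
  set col : A → Finset K := fun s =>
    (Finset.univ.filter fun p : A × A => p.1 ≠ p.2 ∧ p.1 + p.2 = s).image
      fun p => c s(p.1, p.2) with hcol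
  have hmem : ∀ x y s : A, x ≠ y → x + y = s → c s(x, y) ∈ col s := by
    intro x y s h1 h2
    exact Finset.mem_image.2 ⟨(x, y), by simp [h1, h2], rfl⟩
  have hU : {k : K | ∃ x y : A, x ≠ y ∧ c s(x, y) = k} =
      ((Finset.univ.biUnion col : Finset K) : Set K) := by
    ext k
    simp only [Set.mem_ofPred_eq, Finset.coe_biUnion, Set.mem_iUnion, Finset.mem_coe,
      Finset.mem_univ]
    constructor
    · rintro ⟨x, y, h1, rfl⟩
      exact ⟨x + y, trivial, hmem x y _ h1 rfl⟩
    · rintro ⟨s, _, hs⟩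
      obtain ⟨⟨x, y⟩, h1, rfl⟩ := Finset.mem_image.1 hs
      exact ⟨x, y, (Finset.mem_filter.1 h1).2.1, rfl⟩
  rw [hU, Set.ncard_coe_finset, Finset.card_biUnion] at hcon
  swap
  · intro s _ s' _ hss
    change Disjoint (col s) (col s')
    rw [Finset.disjoint_left]
    intro k hk hk'
    obtain ⟨⟨x, y⟩, h1, h2⟩ := Finset.mem_image.1 hk
    obtain ⟨⟨x', y'⟩, h1', h2'⟩ := Finset.mem_image.1 hk'
    rw [Finset.mem_filter] at h1 h1'
    apply hss
    rw [← h1.2.2, ← h1'.2.2]
    exact hc x y x' y' h1.2.1 h1'.2.1 (h2.trans h2'.symm)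
  -- the good sums
  set Good : Finset A := Finset.univ.filter fun s => (col s).card ≤ 2 * C with hGood
  have hG : (1 / 2 : ℝ) * Fintype.card A ≤ Good.card := by
    have h1 : (Finset.univ.filter fun s => ¬ (col s).card ≤ 2 * C).card * (2 * C + 1) ≤
        ∑ s : A, (col s).card := by
      rw [← smul_eq_mul, ← Finset.sum_const]
      refine (Finset.sum_le_sum fun s hs => ?_).trans (Finset.sum_le_sum_of_subset
        (Finset.filter_subset _ _))
      have := (Finset.mem_filter.1 hs).2
      omega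
    have h2 := Finset.card_filter_add_card_filter_not (s := (Finset.univ : Finset A))
      (fun s => (col s).card ≤ 2 * C)
    rw [Finset.card_univ] at h2
    have h3 : 2 * (Finset.univ.filter fun s => ¬ (col s).card ≤ 2 * C).card ≤ Fintype.card A := by
      have h4 := h1.trans hcon
      have h5 : (2 * C + 1) * (2 * (Finset.univ.filter fun s => ¬ (col s).card ≤ 2 * C).card) ≤
          (2 * C + 1) * Fintype.card A := by
        calc _ = 2 * ((Finset.univ.filter fun s => ¬ (col s).card ≤ 2 * C).card * (2 * C + 1)) := by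
              ring
          _ ≤ 2 * (C * Fintype.card A) := Nat.mul_le_mul_left _ h4
          _ = 2 * C * Fintype.card A := by ring
          _ ≤ _ := Nat.mul_le_mul_right _ (by omega)
      exact Nat.le_of_mul_le_mul_left h5 (by omega)
    have h6 : Fintype.card A ≤ 2 * Good.card := by
      rw [hGood]
      omega
    have h7 : (Fintype.card A : ℝ) ≤ 2 * Good.card := by exact_mod_cast h6
    linarith
  obtain ⟨g, S', h1, h2, h3⟩ := hcube A hA0 Good hG
  -- a generic base point
  set BB : Finset A := Finset.univ.image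
    fun ε : ι → Fin 5 => ∑ i, (((ε i : ℕ) : ℤ) - 2) • g i with hBB
  have hBBc : BB.card ≤ 5 ^ Fintype.card ι := by
    refine Finset.card_image_le.trans ?_
    rw [Finset.card_univ, Fintype.card_fun, Fintype.card_fin]
  obtain ⟨b, hb, hbB⟩ : ∃ b ∈ S', b ∉ BB := by
    refine Finset.exists_mem_notMem_of_card_lt_card ?_
    have h4 : (5 : ℝ) ^ (Fintype.card ι) / δ' < Fintype.card A :=
      hN2.trans_le (by exact_mod_cast hA2)
    rw [div_lt_iff₀ hδ'] at h4
    have h5 : (BB.card : ℝ) ≤ 5 ^ Fintype.card ι := by exact_mod_cast hBBc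
    have h6 : (BB.card : ℝ) < S'.card := by linarith
    exact_mod_cast h6
  -- the indices of the colours
  have hidx : ∀ s : A, ∃ f : K → Fin (2 * C + 1), s ∈ Good → Set.InjOn f (col s) := by
    intro s
    by_cases hsG : s ∈ Good
    · have hle : (col s).card ≤ 2 * C + 1 := by
        have := (Finset.mem_filter.1 hsG).2
        omega
      refine ⟨fun k => if h : k ∈ col s then Fin.castLE hle ((col s).equivFin ⟨k, h⟩) else 0,
        fun _ => ?_⟩
      intro k hk k' hk' hkk
      rw [Finset.mem_coe] at hk hk'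
      simp only [hk, hk', dif_pos] at hkk
      have h4 := (Fin.castLE_injective hle) hkk
      have h5 := (col s).equivFin.injective h4
      exact congrArg Subtype.val h5
    · exact ⟨fun _ => 0, fun h => absurd h hsG⟩
  choose idx hidx using hidx
  obtain ⟨l, k0, hk0⟩ := hHJ fun w =>
    idx (ptx g w + pty b g w) (c s(ptx g w, pty b g w))
  set Act : Finset ι := Finset.univ.filter (fun i => l.idxFun i = none) with hAct
  set d : A := ∑ i ∈ Act, g i with hd
  set X0 : A := ∑ i ∈ Finset.univ.filter (fun i => ¬ l.idxFun i = none),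
    pa ((l.idxFun i).getD 0) • g i with hX0
  set Z0 : A := ∑ i ∈ Finset.univ.filter (fun i => ¬ l.idxFun i = none),
    pb ((l.idxFun i).getD 0) • g i with hZ0
  have hx : ∀ j, ptx g (l j) = X0 + pa j • d := fun j => split pa g l j
  have hy : ∀ j, pty b g (l j) = b + Z0 + pb j • d := by
    intro j
    unfold pty
    rw [split pb g l j, add_assoc]
  have hgood : ∀ j, X0 + pa j • d + (b + Z0 + pb j • d) ∈ Good := by
    intro j
    rw [← hx, ← hy, sum_pt]
    exact h2 b hb _ (Finset.subset_univ _)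
  have hd0 : d ≠ 0 := by
    refine h3 Act (Finset.subset_univ _) ?_
    obtain ⟨i, hi⟩ := l.proper
    exact ⟨i, by simp [hAct, hi]⟩
  have hgen : ∀ t : ℤ, -2 ≤ t → t ≤ 2 → b + Z0 - X0 ≠ t • d := by
    intro t ht1 ht2 heq
    apply hbB
    have hz : ∀ i : ι, ∃ e : Fin 5, ((e : ℕ) : ℤ) - 2 = if l.idxFun i = none then t else
        pa ((l.idxFun i).getD 0) - pb ((l.idxFun i).getD 0) := by
      intro i
      have key : ∀ z : ℤ, -2 ≤ z → z ≤ 2 → ∃ e : Fin 5, ((e : ℕ) : ℤ) - 2 = z := by
        intro z h4 h5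
        refine ⟨⟨(z + 2).toNat, by omega⟩, ?_⟩
        simp only
        omega
      split_ifs with h
      · exact key t ht1 ht2
      · have h4 : ∀ v : Fin 4, -2 ≤ pa v - pb v ∧ pa v - pb v ≤ 2 := by decide
        exact key _ (h4 _).1 (h4 _).2
    choose ε hε using hz
    rw [hBB, Finset.mem_image]
    refine ⟨ε, Finset.mem_univ _, ?_⟩
    simp only [hε]
    rw [← Finset.sum_filter_add_sum_filter_not Finset.univ (fun i => l.idxFun i = none)]
    have e1 : ∑ i ∈ Finset.univ.filter (fun i => l.idxFun i = none),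
        (if l.idxFun i = none then t else
          pa ((l.idxFun i).getD 0) - pb ((l.idxFun i).getD 0)) • g i = t • d := by
      rw [hd, Finset.smul_sum]
      refine Finset.sum_congr rfl fun i hi => ?_
      rw [if_pos (Finset.mem_filter.1 hi).2]
    have e2 : ∑ i ∈ Finset.univ.filter (fun i => ¬ l.idxFun i = none),
        (if l.idxFun i = none then t else
          pa ((l.idxFun i).getD 0) - pb ((l.idxFun i).getD 0)) • g i = X0 - Z0 := by
      rw [hX0, hZ0, ← Finset.sum_sub_distrib]
      refine Finset.sum_congr rfl fun i hi => ?_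
      rw [if_neg (Finset.mem_filter.1 hi).2, sub_smul]
    rw [e1, e2, ← heq]
    abel
  set Y0 : A := b + Z0 with hY0
  -- the differences
  have n0 : X0 ≠ Y0 := by
    intro h
    refine hgen 0 (by norm_num) (by norm_num) ?_
    rw [← h, sub_self, zero_smul]
  have n1 : Y0 ≠ X0 + d := by
    intro h
    refine hgen 1 (by norm_num) (by norm_num) ?_
    rw [h, one_smul]
    abel
  have n2 : X0 + d ≠ Y0 - d := by
    intro h
    refine hgen 2 (by norm_num) (by norm_num) ?_
    have : Y0 = X0 + d + d := by rw [h]; abel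
    rw [this, two_smul]
    abel
  have n3 : Y0 + d ≠ X0 := by
    intro h
    refine hgen (-1) (by norm_num) (by norm_num) ?_
    rw [← h, neg_smul, one_smul]
    abel
  have n4 : Y0 - d ≠ X0 := by
    intro h
    apply n1
    rw [← h]
    abel
  -- the values of the colour
  have g0 := hgood 0
  have g2 := hgood 2
  have v0 := hk0 0
  have v1 := hk0 1
  have v2 := hk0 2
  have v3 := hk0 3
  simp only [hx, hy] at v0 v1 v2 v3
  have a0 : pa 0 = 0 := rfl
  have a1 : pa 1 = 1 := rfl
  have a2 : pa 2 = 0 := rfl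
  have a3 : pa 3 = 1 := rfl
  have b0 : pb 0 = 0 := rfl
  have b1 : pb 1 = -1 := rfl
  have b2 : pb 2 = 1 := rfl
  have b3 : pb 3 = 0 := rfl
  rw [a0, b0, zero_smul, add_zero, add_zero] at g0 v0
  rw [a2, b2, zero_smul, one_smul, add_zero] at g2 v2
  rw [a1, b1, one_smul, neg_smul, one_smul] at v1
  rw [a3, b3, one_smul, zero_smul, add_zero] at v3
  have s1 : X0 + d + (Y0 + -d) = X0 + Y0 := by abel
  have s3 : X0 + d + Y0 = X0 + (Y0 + d) := by abel
  rw [s1] at v1
  rw [s3] at v3
  rw [← sub_eq_add_neg] at v1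
  have c1 : c s(X0, Y0) = c s(X0 + d, Y0 - d) := by
    refine hidx _ g0 (hmem _ _ _ n0 rfl) (hmem _ _ _ n2 ?_) (v0.trans v1.symm)
    abel
  have c2 : c s(X0, Y0 + d) = c s(X0 + d, Y0) := by
    refine hidx _ g2 (hmem _ _ _ n3.symm rfl) (hmem _ _ _ n1.symm ?_) (v2.trans v3.symm)
    abel
  refine hs (Y0 + d) X0 Y0 (X0 + d) (Y0 - d) n3 ?_ ?_ n0 ?_ n1 n4 ?_ n2.symm ⟨?_, c1⟩
  · intro h
    exact hd0 (by simpa using h)
  · intro h
    exact n0 (add_right_cancel h).symm
  · intro h
    exact hd0 (by simpa using h.symm)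
  · intro h
    exact hd0 (by simpa using h)
  · rw [Sym2.eq_swap, c2, Sym2.eq_swap]

end Pool.Agent.K1H16.SC
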